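import Pool.Agent.V1157.RG.Main

/-!
# Regulators with bounded kernels and cokernels are isomorphisms

Fix the dimension `n` and the indices `(i, m)`, `m < i / 2`, of the regulators
`r : M(X) → S(X)` from motivic cohomology `M(X) = H^{i+1}(X, ℚ(i+1-m))_ℤ ⊗ ℝ` to real Deligne
cohomology `S(X)`. Decomposable correspondences act on both sides through the groups of the base
field, for which the regulators are isomorphisms (Borel's theorem). Then

* the regulators of all varieties of dimension `n` are injective if and only if the dimensions of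
  their kernels are bounded, and if and only if the self-correspondences of degree zero satisfy
  some non-zero multilinear polynomial identity on the kernels;
* the same holds for surjectivity and the cokernels.
-/

open CategoryTheory AlgebraicGeometry

universe u v w

namespace Pool.Agent.Results.MP_15b3df_nt.BoundedRegulatorDefects

open Pool.Agent.H914 Pool.Agent.H914.VarClass Pool.Agent.H914.VarClass.Obj Pool.Agent.W492.BB
  Pool.Agent.TH133 Pool.Agent.V1157.KF Pool.Agent.V1157.RG

theorem result {k : Type u} [Field k] {𝒱 : VarClass k} {C : TheoryData.{u, v, 0} 𝒱 ℚ}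
    [IsChowProj C] {n : ℕ} {F : Type} [Field F] [CharZero F] (a : Regulators.{u, v, w} C n F)
    (hB : ∀ (S : 𝒱.Obj) (N : ℕ), S.dim = n → HasPower C n N S) :
    List.TFAE [∀ X : 𝒱.Obj, X.dim = n → Function.Injective (a.r X), ∃ D, KerAtMost a D,
      ∃ (d : ℕ) (c : Equiv.Perm (Fin d) → F), c ≠ 0 ∧ KerIdentity a d c] ∧
    List.TFAE [∀ X : 𝒱.Obj, X.dim = n → Function.Surjective (a.r X), ∃ D, CokerAtMost a D,
      ∃ (d : ℕ) (c : Equiv.Perm (Fin d) → F), c ≠ 0 ∧ CokerIdentity a d c] :=
  ⟨ker_main a hB, coker_main a hB⟩

end Pool.Agent.Results.MP_15b3df_nt.BoundedRegulatorDefects
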