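import Pool.Agent.V11133.BEI.GLim
import Pool.Agent.Y797.GC.Unr
import Pool.Agent.Y797.GC.Gen
set_option autoImplicit false

/-!
Beilinson's conjecture on regulators for `K_2` of curves (`i = 1`, `m = 0`, `n = 2`): the limit formula
for the regulators of the integral classes of the curves
`λ g ∏_i (y - φ_i(x)) ^ (w_i + 1) ∏_k (x - ρ_k) ^ ν_k = 1`, with arbitrary polynomials `φ_i` and numbers
`ρ_k` over the ring of integers of an arbitrary number field. For every pair `(i, k)` there is a loop
`Γ_{i,k}` in the complex points on which the regulators of *all* the classes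
`∑ n_{i,k} {y - φ_i(x), x - ρ_k}` with admissible coefficients are `- (2 π n_{i,k} + o(1)) log |λ|`, so that
the determinants of the regulators of families of such classes are asymptotically
`(- 2 π log |λ|) ^ b` times the determinants of their coefficients; for a basis of the space of the
admissible coefficients, of dimension `b` (at least the genus of the curve in the nodal case), and
suitable loops, they are asymptotically `(- 2 π log |λ|) ^ b`.
-/

namespace Pool.Agent.Results.MP_15b3df_nt.CurveRegulatorLimits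

open Pool.Agent.TH826.MK (KQ Unramified Torus)

open Pool.Agent.Y797.GC

section defs

variable {K : Type*} [Field K] {r p : ℕ}

/-- The `φ_i` are different and have integral coefficients, the `ρ_k` are different and integral,
`g` has integral coefficients and does not vanish at the points `(ρ_k, φ_i(ρ_k))`. -/
def IntegralData (A : Arr K r p) : Prop :=
  (∀ i j, IsIntegral ℤ ((A.phi i).coeff j)) ∧ (∀ k, IsIntegral ℤ (A.rho k)) ∧
    (∀ i j, IsIntegral ℤ ((A.g.coeff i).coeff j)) ∧ Function.Injective A.phi ∧
    Function.Injective A.rho ∧ ∀ i k, (A.g.eval (A.phi i)).eval (A.rho k) ≠ 0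

/-- The lower bounds for the dimension of the space of the admissible coefficients. -/
def DimensionBounds (A : Arr K r p) : Prop :=
  (r + 1) * p + 1 ≤ A.dim + A.comps ∧
    ∀ d, (∀ k, A.nu k ≤ 1) → A.Nodal d → (r + 1).choose 2 * d + r * ∑ k, A.nu k ≤ A.dim + r

/-- There is a basis `B_m` of the space of the admissible coefficients and there are pairs
`e_l = (i_l, k_l)` such that the `e_l`-th coefficient of `B_m` is `1` for `l = m` and `0` for `l ≠ m`. -/
def DualBasis (A : Arr K r p) : Prop :=
  ∃ (B : Fin A.dim → Fin (r + 1) → Fin p → ℚ) (e : Fin A.dim → Fin (r + 1) × Fin p), A.IsBasis B ∧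
    ∀ l m, B m (e l).1 (e l).2 = if l = m then 1 else 0

/-- The classes with admissible coefficients have unramified images in `K_2 ⊗ ℚ` of all fields `L`
with a homomorphism from the coordinate ring of the open part to `L`. -/
def UnramifiedClasses.{u, v} {K : Type u} [Field K] (A : Arr K r p) (lam : K) : Prop :=
  ∀ n, A.IsAdm n → ∀ (L : Type v) [Field L] (f : A.Open lam →+* L),
    KQ.map 2 f (A.cl lam n) ∈ Unramified L 2

/-- There are loops `Γ_{i,k}` in the complex points (over `σ`) of the open part of the curve such that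
for all `n` the regulator of the class of `n` on `Γ_{i,k}`, divided by `- log |σ λ|`, differs from
`2 π n_{i,k}` by at most `ε ∑ |n_{j,l}|`. -/
def LoopsWithin (σ : K →+* ℂ) (A : Arr K r p) (lam : K) (ε : ℝ) : Prop :=
  ∃ Γ : Fin (r + 1) → Fin p → Torus (A.Open lam) 1,
    (∀ i k θ (x : K), (Γ i k).e θ (A.toO lam (Polynomial.C (Polynomial.C x))) = σ x) ∧
    ∀ (n : Fin (r + 1) → Fin p → ℚ) i k,
      |(Γ i k).reg (A.cl lam n) / (-Real.log ‖σ lam‖) - 2 * Real.pi * (n i k : ℝ)| ≤
        ε * ∑ j, ∑ l, |(n j l : ℝ)|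

/-- There are `b` loops in the complex points (over `σ`) of the open part of the curve such that the
determinant of the regulators of the classes of `B_1, ..., B_b` on them, divided by
`(- log |σ λ|) ^ b`, differs from `(2 π) ^ b det (B_{m, e_l})` by less than `ε`. -/
def DeterminantWithin (σ : K →+* ℂ) (A : Arr K r p) (lam : K) {b : ℕ}
    (B : Fin b → Fin (r + 1) → Fin p → ℚ) (e : Fin b → Fin (r + 1) × Fin p) (ε : ℝ) : Prop :=
  ∃ Γ : Fin b → Torus (A.Open lam) 1,
    (∀ l θ (x : K), (Γ l).e θ (A.toO lam (Polynomial.C (Polynomial.C x))) = σ x) ∧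
    |(Matrix.of fun l m => (Γ l).reg (A.cl lam (B m))).det / (-Real.log ‖σ lam‖) ^ b -
      (2 * Real.pi) ^ b * (((Matrix.of fun l m => B m (e l).1 (e l).2).det : ℚ) : ℝ)| < ε

end defs

/-- Let `σ` be a complex embedding of the number field `K`, let `φ_0, ..., φ_r` be different
polynomials in `K[x]` with integral coefficients, let `ρ_1, ..., ρ_p` be different algebraic integers
of `K`, let `w_i ≥ 0` and `ν_k ≥ 0` be integers, and let `g` be a polynomial in `K[x, y]` with
integral coefficients which does not vanish at the points `(ρ_k, φ_i(ρ_k))`. Let `Adm` be the space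
of the rational matrices `(n_{i,k})` such that the sums of the rows and of the columns vanish, and
for every `k` with `ν_k = 0` and every `z` the sum of the `n_{i,k}` over all `i` with `φ_i(ρ_k) = z`
vanishes; its dimension `b` satisfies the `DimensionBounds`, and it has a basis dual to `b` of the
coordinates.

For every `ε > 0` there is a constant `C` such that for all algebraic integers `λ` of `K` with
`|σ λ| ≥ C` the curve `λ g ∏_i (y - φ_i(x)) ^ (w_i + 1) ∏_k (x - ρ_k) ^ ν_k = 1` is smooth (over `σ`),
the classes of the `n` in `Adm` in `K_2 ⊗ ℚ` are unramified, and there are loops `Γ_{i,k}` on which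
the regulators of all the classes, divided by `- log |σ λ|`, are `2 π n_{i,k}` up to `ε ∑ |n_{j,l}|`.
Hence for all `B_1, ..., B_b` and all pairs `e_1, ..., e_b` the determinant of the regulators,
divided by `(- log |σ λ|) ^ b`, tends to `(2 π) ^ b det (B_{m, e_l})`. -/
theorem result.{u, v} (r p : ℕ) (K : Type u) [Field K] [NumberField K] (σ : K →+* ℂ)
    (A : Arr K r p) (hA : IntegralData A) :
    DimensionBounds A ∧ DualBasis A ∧
    (∀ ε : ℝ, 0 < ε → ∃ C : ℝ, ∀ lam : K, IsIntegral ℤ lam → C ≤ ‖σ lam‖ →
      A.Smooth lam σ ∧ UnramifiedClasses.{u, v} A lam ∧ LoopsWithin σ A lam ε) ∧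
    ∀ (b : ℕ) (B : Fin b → Fin (r + 1) → Fin p → ℚ) (e : Fin b → Fin (r + 1) × Fin p) (ε : ℝ),
      0 < ε → ∃ C : ℝ, ∀ lam : K, IsIntegral ℤ lam → C ≤ ‖σ lam‖ →
        DeterminantWithin σ A lam B e ε := by
  obtain ⟨hphi, hrho, hg, hphi', hrho', hv⟩ := hA
  refine ⟨⟨finrank_Adm A, fun d h1 h2 => genus_le A h1 h2⟩,
    Pool.Agent.V11133.BEI.exists_echelon A, fun ε hε => ?_, fun b B e ε hε => ?_⟩
  · obtain ⟨Λ, hΛ1, hΛ⟩ := Pool.Agent.V11133.BEI.exists_loops (A := A) σ hphi' hrho' hv hε
    obtain ⟨Λ', hΛ'1, hΛ'⟩ := exists_smooth A σ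
    refine ⟨max Λ Λ', fun lam hlam hl => ?_⟩
    exact ⟨hΛ' lam ((le_max_right _ _).trans hl), fun n hn L _ f =>
      cl_mem_unramified f hphi hrho hg hlam hn, hΛ lam ((le_max_left _ _).trans hl)⟩
  · obtain ⟨Λ, hΛ1, hΛ⟩ := Pool.Agent.V11133.BEI.det_limit (A := A) σ hphi' hrho' hv B e hε
    exact ⟨Λ, fun lam _ hl => hΛ lam hl⟩

end Pool.Agent.Results.MP_15b3df_nt.CurveRegulatorLimits
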