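import Pool.Agent.H255R.MR.Map

/-!
# Beilinson regulators of products of regular surfaces and of products of curves
-/

open CategoryTheory AlgebraicGeometry

universe u v w x

namespace Pool.Agent.Results.MP_15b3df_nt.RegularSurfaces

open Pool.Agent.H914 Pool.Agent.H914.VarClass Pool.Agent.H914.VarClass.Obj Pool.Agent.W492.BB
  Pool.Agent.W550.Corr Pool.Agent.TH133 Pool.Agent.H255R.HR Pool.Agent.H255R.MR

/-- The regulator `φ : M(X) → D(X)` of the variety `X` is bijective in the weights `n ≤ R` (the
classes of weight `n` are those of the families `𝓜` and `𝓓`). -/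
def RegulatorBijective {k : Type u} [Field k] {𝒱 : VarClass k} {C : TheoryData.{u, v, 0} 𝒱 ℚ}
    {M D : ModData.{u, v, x} C} (φ : ∀ X, M.A X → D.A X) (𝓜 : Fam M) (𝓓 : Fam D) (R : ℤ)
    (X : 𝒱.Obj) : Prop :=
  InjUpTo φ 𝓜 R X ∧ SurjUpTo φ 𝓜 𝓓 R X

/-- Consider the smooth projective varieties `X` over `ℚ̄`, and fix an integer `j ≥ 2`. Let `M(X)` be
the sum of the integral parts of the motivic cohomology groups `H^{2n-j}(X_K, ℚ(n)) ⊗ ℝ` (the direct
limit over the number fields `K`, and the models `X_K` of `X`), let `D(X)` be the direct limit of the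
sums of the real Deligne cohomology groups `H_D^{2n-j}(X_K/ℝ, ℝ(n))`, and let `φ` be the regulator. (By
Galois descent `φ` is bijective, in the weights at most `R`, if and only if the regulators of all
models of `X` over number fields are bijective.) More generally, let `φ : M → D` be a transformation
of module theories over the Chow groups, where `M` and `D` are graded by weights.

Let `𝒞` be a class of curves with `HasGalQuotients` (for example all curves, or one hyperelliptic
curve). For all varieties `U` and all `R` and `N` the following statements are equivalent.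

1. The regulators are bijective in the weights at most `R` for the varieties `U × A` and
`U × A × S`, where `A` is a product of at most `N` regular surfaces dominated by products of two
curves in `𝒞`, and `S` is a curve in `𝒞`.
2. The same without the condition that the surfaces be regular.
3. The regulators are bijective in the weights at most `R` for `U × W`, where `W` is a product
of at most `2 N + 1` curves in `𝒞`.
4. The regulators are bijective in the weights at most `R` for all varieties which are
dominated by varieties `U × W` as in 3. -/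
theorem result {k : Type u} [Field k] {𝒱 : VarClass k} (C : TheoryData.{u, v, 0} 𝒱 ℚ)
    [IsChowProj C] {F : Type w} [Field F] [CharZero F] (H : WeilTheoryData.{u, v, w} C F)
    [IsWeilProj H] (M D : ModData.{u, v, x} C) (hM : IsModTheory M) (hD : IsModTheory D)
    (φ : ∀ X, M.A X → D.A X) (hφ : IsTransformation M D φ) (𝓜 : Fam M) (𝓓 : Fam D)
    (𝒞 : 𝒱.Obj → Prop) (hG : HasGalQuotients.{u, v, w, x} H 𝒞) (U : 𝒱.Obj) (R : ℤ) (N : ℕ) :
    List.TFAE [
      ∀ m ≤ N, ∀ A : 𝒱.Obj, IsProdOf U (IsRegDominated.{u, v, w, x} H 𝒞) m A →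
        RegulatorBijective φ 𝓜 𝓓 R A ∧
          ∀ S : 𝒱.Obj, 𝒞 S → RegulatorBijective φ 𝓜 𝓓 R (A.prod S),
      ∀ m ≤ N, ∀ A : 𝒱.Obj, IsProdOf U (IsDominated.{u, v, x} C 𝒞) m A →
        RegulatorBijective φ 𝓜 𝓓 R A ∧
          ∀ S : 𝒱.Obj, 𝒞 S → RegulatorBijective φ 𝓜 𝓓 R (A.prod S),
      ∀ l ≤ 2 * N + 1, ∀ W : 𝒱.Obj, IsProdOf U 𝒞 l W → RegulatorBijective φ 𝓜 𝓓 R W,
      ∀ l ≤ 2 * N + 1, ∀ W X : 𝒱.Obj, IsProdOf U 𝒞 l W → IsDominatedBy C W X →
        RegulatorBijective φ 𝓜 𝓓 R X] :=
  tfaeM (M := M) (M' := D) (𝓜 := kerFam hφ 𝓜) (𝓝 := zeroFam M) (𝓜' := 𝓓) (𝓝' := imFam hφ 𝓜)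
    hG U R N _ fun X => and_congr (good_inj hφ 𝓜 R X).symm (good_surj hφ 𝓜 𝓓 R X).symm

end Pool.Agent.Results.MP_15b3df_nt.RegularSurfaces
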