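import Pool.Agent.Results.MP_15b3df_nt.SimplexFibrationsNumberField
import Pool.Agent.V1158.BL.TorS
set_option autoImplicit false

/-!
Regulator determinants of fibrations in Calabi-Yau varieties and in other varieties mirror to
weighted hypersurfaces, over arbitrary number fields (for instance over `ℚ`): the varieties
`z + y_1 + ... + y_q + 1/(z y_1 ^ v_1 ... y_q ^ v_q) = λ ∏_e L_e`, `q ≥ 1`, `v_i ≥ 1`, of dimension
`d = n + 1 + q`, the `L_e` being `m + 1` affine forms in `n + 1` variables in general position.

There are unramified classes for all simplices `S` with `n + 2` vertices in `{0, ..., m}`, and tori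
`Γ_T` in the complex points for all simplices `T` with `n + 1` vertices. For `λ → ∞` all
determinants `det (reg (Γ_{T_i}, S_j))` of size `r`, divided by `((2 π) ^ d log |λ|) ^ r`, tend to the
corresponding minors of the matrix of the boundary operator of the simplex with the vertices
`0, ..., m` (integers, which are not only `0` and `± 1` in general: the boundary matrix has minors of
absolute value `2` coming from triangulations of the projective plane). So the classes of every set
of simplices with linearly independent boundaries have linearly independent regulators, and the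
limit of the determinant is known. In `SimplexFibrationsNumberField` only one determinant (for the
simplices with the vertex `0`) is treated, and only its nonvanishing is shown.
-/

namespace Pool.Agent.Results.MP_15b3df_nt.SimplexBoundaryLimits

open Pool.Agent.TH826.MK (KQ symb Unramified Torus)

open Pool.Agent.TH690.SF (SRing SOpen SmoothPts UnramSymb scst sent)

open Pool.Agent.Y797.IV (Clears GenPos)

open Pool.Agent.V1158.BL (bd minor)

/-- There are tori `Γ_T` of dimension `d = n + 1 + q` in the complex points (over `σ`) of the open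
part of the hypersurface, one for every simplex `T` with `n + 1` vertices in `{0, ..., m}`, such that
for all `r`, all different simplices `S_1, ..., S_r` with `n + 2` vertices and all different simplices
`T_1, ..., T_r` with `n + 1` vertices the determinant of the regulators of the symbols of the `S_j`
on the tori of the `T_i`, divided by `((2 π) ^ d log |σ λ|) ^ r`, differs by less than `ε` from the
minor of the boundary matrix, and it is not zero if this minor is not zero. -/
def MinorLimit {K : Type*} [Field K] {n m q : ℕ} (w : Fin q → ℕ) (σ : K →+* ℂ) (lam : K)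
    (c : Fin (m + 1) → Fin (n + 1) → K) (a : Fin (m + 1) → K) (ε : ℝ) : Prop :=
  ∃ Γ : (Fin (n + 1) ↪o Fin (m + 1)) → Torus (SOpen w lam c a) (n + 1 + q),
    (∀ T θ (x : K), (Γ T).e θ (scst w lam c a x) = σ x) ∧
    ∀ (r : ℕ) (S : Fin r ↪ (Fin (n + 2) ↪o Fin (m + 1)))
      (T : Fin r ↪ (Fin (n + 1) ↪o Fin (m + 1))),
      |(Matrix.of fun i j => (Γ (T i)).reg (symb (sent w lam c a (S j)))).det /
          ((2 * Real.pi) ^ (n + 1 + q) * Real.log ‖σ lam‖) ^ r - minor S T| < ε ∧
        (minor S T ≠ 0 →
          (Matrix.of fun i j => (Γ (T i)).reg (symb (sent w lam c a (S j)))).det ≠ 0)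

/-- Let `q ≥ 1` (below `q + 1` is written for `q`), let `v_i = w_i + 1 ≥ 1`, `i = 1, ..., q`, be
arbitrary integers, let `n + 1 ≤ m`, let `σ` be a complex embedding of the number field `K`, and let
`L_e = ∑_j c_{e,j} x_j - a_e`, `0 ≤ e ≤ m`, be affine forms in `n + 1` variables with integral
coefficients in `K` in general position (the linear parts of `n + 1` different forms are linearly
independent, `n + 2` different forms have no common zero). An algebraic integer `D ≠ 0` of `K`
clears the denominators of the vertices, if the coordinates of `D p` are integral for all common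
zeros `p` of `n + 1` forms; there are such `D` (even positive rational integers). For every `ε > 0`
there is a constant `C` such that for all these `D`, all algebraic integers `μ` of `K` and
`λ = μ D ^ (m + 1)` with `|σ λ| ≥ C`
* the coordinate ring of the affine hypersurface `F = Y z² + Y (y_1 + ... + y_q - Φ) z + 1 = 0`,
  `Y = y_1 ^ v_1 ... y_q ^ v_q`, `Φ = λ ∏_e L_e` is a domain; the hypersurface is smooth at all its
  complex points over `σ`; for all `n + 2` different forms `S` the symbol
  `{z, u_1, ..., u_{n+1}, y_1, ..., y_q}`, `u_k = γ_k L_{S_k} / (γ_0 L_{S_0})`, is unramified at all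
  discrete valuations of the function field, where `γ_k` is `(-1)^k` times the determinant of the
  linear parts of the forms `S` without `S_k` (this is contained in `SimplexFibrationsNumberField`);
* `MinorLimit` holds with `ε`.
If the boundaries of `S_1, ..., S_r` are linearly independent, there are `T_1, ..., T_r` for which the
minor is not zero. -/
theorem result.{u, v} (n m q : ℕ) (w : Fin (q + 1) → ℕ) (hm : n + 1 ≤ m) (K : Type u) [Field K]
    [NumberField K] (σ : K →+* ℂ) (c : Fin (m + 1) → Fin (n + 1) → K) (a : Fin (m + 1) → K)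
    (hc : ∀ e j, IsIntegral ℤ (c e j)) (ha : ∀ e, IsIntegral ℤ (a e)) (hG : GenPos c a) :
    (∀ (r : ℕ) (S : Fin r ↪ (Fin (n + 2) ↪o Fin (m + 1))),
      (LinearIndependent ℝ fun j => bd (S j)) →
        ∃ T : Fin r ↪ (Fin (n + 1) ↪o Fin (m + 1)), minor S T ≠ 0) ∧
    (∃ D : ℕ, Clears c a (D : K)) ∧
    ∀ ε : ℝ, 0 < ε → ∃ C : ℝ, ∀ D mu : K, Clears c a D → IsIntegral ℤ mu →
      C ≤ ‖σ (mu * D ^ (m + 1))‖ →
      IsDomain (SRing w (mu * D ^ (m + 1)) c a) ∧ SmoothPts w σ (mu * D ^ (m + 1)) c a ∧
        UnramSymb.{u, v} w (mu * D ^ (m + 1)) c a ∧ MinorLimit w σ (mu * D ^ (m + 1)) c a ε := by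
  refine ⟨fun r S h => Pool.Agent.V1158.BL.exists_minor S h, ?_⟩
  obtain ⟨hD, C1, hC1⟩ :=
    Pool.Agent.Results.MP_15b3df_nt.SimplexFibrationsNumberField.result.{u, v} n m q w hm K σ c a hc
      ha hG
  refine ⟨hD, fun ε hε => ?_⟩
  obtain ⟨δ, hδ, hδ2⟩ := Pool.Agent.V1158.BL.exists_delta_minor (n := n) (m := m) hε
  obtain ⟨C2, hC2, h2⟩ := Pool.Agent.V1158.BL.exists_allS (a := a) w σ hG.1 hG.2 hδ
  refine ⟨max C1 C2, fun D mu hD hmu hl => ?_⟩
  obtain ⟨g1, g2, g3, -⟩ := hC1 D mu hD hmu ((le_max_left _ _).trans hl)
  refine ⟨g1, g2, g3, ?_⟩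
  generalize mu * D ^ (m + 1) = lam at hl
  have hl2 : C2 ≤ ‖σ lam‖ := (le_max_right _ _).trans hl
  obtain ⟨Γ, hΓ1, hΓ2⟩ := h2 lam hl2
  refine ⟨Γ, hΓ1, fun r S T => ?_⟩
  set t : ℝ := (2 * Real.pi) ^ (n + 1 + (q + 1)) * Real.log ‖σ lam‖ with ht
  have ht0 : t ≠ 0 := by
    have h3 : 0 < Real.log ‖σ lam‖ := Real.log_pos (by linarith)
    have := Real.pi_pos
    positivity
  obtain ⟨h4, h5⟩ := hδ2 (fun S T => (Γ T).reg (symb (sent w lam c a S)) / t)
    (fun S T => hΓ2 T S) r S T
  have h6 : (Matrix.of fun i j => (Γ (T i)).reg (symb (sent w lam c a (S j)))) =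
      t • (Matrix.of fun i j => (Γ (T i)).reg (symb (sent w lam c a (S j))) / t) := by
    ext i j
    rw [Matrix.smul_apply, Matrix.of_apply, Matrix.of_apply, smul_eq_mul]
    field_simp
  have h7 : (Matrix.of fun i j => (Γ (T i)).reg (symb (sent w lam c a (S j)))).det =
      t ^ r * (Matrix.of fun i j => (Γ (T i)).reg (symb (sent w lam c a (S j))) / t).det := by
    rw [h6, Matrix.det_smul, Fintype.card_fin]
  rw [h7, mul_div_cancel_left₀ _ (pow_ne_zero r ht0)]
  exact ⟨h4, fun h => mul_ne_zero (pow_ne_zero r ht0) (h5 h)⟩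

end Pool.Agent.Results.MP_15b3df_nt.SimplexBoundaryLimits
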